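import Pool.Agent.N662.FP.Stm2

/-!
# Project FL, part 2, leaf LAY2: mean from an exponential tail bound
-/

set_option autoImplicit false

open MeasureTheory ProbabilityTheory Filter Set
open scoped ENNReal Topology

namespace Pool.Agent.N346.FM

open Pool.Agent.N662.FP

theorem t_LAY2 : S_LAY2 := by
  intro Ω _ _ T hT hTi b C lam hlam h
  have hint : Integrable (fun ω => max (T ω - b) 0) (volume : Measure Ω) :=
    (hTi.sub (integrable_const b)).pos_part
  rw [hint.integral_eq_integral_meas_le (Eventually.of_forall fun ω => le_max_right _ _)]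
  have hg : IntegrableOn (fun t : ℝ => C * Real.exp (-lam * t)) (Ioi 0) :=
    (exp_neg_integrableOn_Ioi 0 hlam).const_mul C
  have hval : ∫ t in Ioi (0 : ℝ), C * Real.exp (-lam * t) = C / lam := by
    rw [integral_const_mul, integral_exp_mul_Ioi (by linarith : -lam < 0)]
    simp only [mul_zero, Real.exp_zero]
    field_simp
  rw [← hval]
  refine integral_mono_of_nonneg (Eventually.of_forall fun t => measureReal_nonneg) hg ?_
  filter_upwards [ae_restrict_mem measurableSet_Ioi] with t ht
  have ht0 : (0 : ℝ) < t := ht
  have hsub : {ω : Ω | t ≤ max (T ω - b) 0} ⊆ {ω | b + t ≤ T ω} := by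
    intro ω hω
    have h1 : t ≤ max (T ω - b) 0 := hω
    rcases le_max_iff.1 h1 with h2 | h2
    · show b + t ≤ T ω
      linarith
    · exact absurd h2 (not_le.2 ht0)
  calc (volume : Measure Ω).real {ω : Ω | t ≤ max (T ω - b) 0}
      ≤ (volume : Measure Ω).real {ω | b + t ≤ T ω} := measureReal_mono hsub
    _ ≤ C * Real.exp (-(lam * ((b + t) - b))) := h (b + t) (by linarith)
    _ = C * Real.exp (-lam * t) := by
        congr 2
        ring

end Pool.Agent.N346.FM
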